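import Pool.Agent.H888R2.KB.F2
import Pool.Agent.H888R2.KB.N2

/-!
# KLS for log-concave measures on tuples of matrices invariant under independent rotations

The Kannan-Lovasz-Simonovits conjecture, in the equivalent (E. Milman) form of a variance bound for
Lipschitz functions, for all log-concave probability measures on `b`-tuples `(X_1, …, X_b)` of real
`m × n` matrices, `n ≤ m`, `3 ≤ m`, which are invariant under `(X_1, …, X_b) ↦ (g_1 X_1, …, g_b X_b)`
with INDEPENDENT orthogonal matrices `g_i`. The constant is `C (1 + log b / m) ^ 2`, hence absolute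
as long as the number of blocks is at most exponential in the size: `b ≤ exp m`.

Method: discrete Bochner inequality through the Gaussian channel (`KT.N8`) on the set where all
operator norms are at most `C √(m s)`, and exponential tails of the operator norms.

Formalised by the team from the blueprint in `Pool.Agent.H888R2.KB` (helpers 12, 21, 141, 303, 320,
323, 377, 437, 551, 577, 634, 663, 766, 882, 888, 910, 929, 964) and the modules of helper212.
-/

set_option autoImplicit false

namespace Pool.Agent.Results.MP_6d896a_gt.IndependentRotations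

open MeasureTheory Set
open scoped ENNReal InnerProductSpace

/-- `b`-tuples of real `m × n` matrices with the Euclidean (Hilbert-Schmidt) structure -/
abbrev Tuples (b m n : ℕ) : Type := EuclideanSpace ℝ (Fin b × (Fin m × Fin n))

/-- the `i`-th matrix `X_i` of the tuple `x` -/
def block {b m n : ℕ} (i : Fin b) (x : Tuples b m n) : Matrix (Fin m) (Fin n) ℝ :=
  Matrix.of fun k l => x (i, (k, l))

/-- `ρ` is a log-concave density on tuples which does not change when one of the matrices `X_i` is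
replaced by `g X_i`, `g` orthogonal; so it is invariant under `(g_1 X_1, …, g_b X_b)`. -/
structure InvDensity {b m n : ℕ} (ρ : Tuples b m n → ℝ) : Prop where
  meas : Measurable ρ
  nonneg : ∀ x, 0 ≤ ρ x
  logc : ∀ x y, ∀ t : ℝ, 0 < t → t < 1 → ρ x ^ (1 - t) * ρ y ^ t ≤ ρ ((1 - t) • x + t • y)
  inv : ∀ i : Fin b, ∀ g ∈ Matrix.orthogonalGroup (Fin m) ℝ, ∀ x y : Tuples b m n,
    block i y = g * block i x → (∀ j, j ≠ i → block j y = block j x) → ρ y = ρ x

/-- `E ⟪θ, X⟫² ≤ s ‖θ‖²` for all `θ` (here the mean is zero by symmetry: the covariance matrix has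
norm at most `s`). -/
def CovLe {b m n : ℕ} (μ : Measure (Tuples b m n)) (s : ℝ) : Prop :=
  ∀ θ : Tuples b m n, ∫⁻ x, ENNReal.ofReal (⟪θ, x⟫_ℝ ^ 2) ∂μ ≤ ENNReal.ofReal (s * ‖θ‖ ^ 2)

/-- **KLS for independent rotations.** There is an absolute constant `C` such that for all `b ≥ 1`,
`m ≥ 3`, `1 ≤ n ≤ m`, every log-concave probability density `ρ` on `b`-tuples of `m × n` matrices
invariant under independent orthogonal matrices acting on the blocks and every `s > 0` with
`E ⟪θ, X⟫² ≤ s ‖θ‖²`, the following holds with `K = C (1 + log b / m)² s`. Every `C¹` function with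
`‖∇ f‖ ≤ 1` has variance at most `K`, and every `C¹` function with `|f| ≤ 1` satisfies
`(Var f)² ≤ K E ‖∇ f‖²`. -/
theorem result : ∃ C : ℝ, 0 < C ∧ ∀ b m n : ℕ, 1 ≤ b → 3 ≤ m → 1 ≤ n → n ≤ m →
    ∀ ρ : Tuples b m n → ℝ, InvDensity ρ →
    ∀ μ : Measure (Tuples b m n), μ = volume.withDensity (fun x => ENNReal.ofReal (ρ x)) →
    IsProbabilityMeasure μ → ∀ s : ℝ, 0 < s → CovLe μ s →
    ∀ f : Tuples b m n → ℝ, ContDiff ℝ 1 f →
    ((∀ x, ‖fderiv ℝ f x‖ ≤ 1) → MemLp f 2 μ ∧
      ProbabilityTheory.variance f μ ≤ C * (1 + Real.log b / m) ^ 2 * s) ∧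
    ((∀ x, |f x| ≤ 1) → ENNReal.ofReal (ProbabilityTheory.variance f μ ^ 2) ≤
      ENNReal.ofReal (C * (1 + Real.log b / m) ^ 2 * s) *
        ∫⁻ x, ENNReal.ofReal (‖fderiv ℝ f x‖ ^ 2) ∂μ) := by
  obtain ⟨C₁, hC₁, h₁⟩ := H888R2.KB.mainb
  obtain ⟨C₂, hC₂, h₂⟩ := H888R2.KB.mainc
  refine ⟨max C₁ C₂, lt_max_of_lt_left hC₁, ?_⟩
  intro b m n hb hm hn hnm ρ hρ' μ hμ hprob s hs hmom f hf
  subst hμ
  have hρ : H888R2.KB.DB ρ := ⟨hρ'.nonneg, hρ'.meas, hρ'.logc, fun i g hg x => by
    refine hρ'.inv i g hg x _ ?_ ?_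
    · ext k l
      show (H888R2.KB.ap i (H888R2.KB.lml g) x) (i, (k, l)) = _
      show (if (i, (k, l)).1 = i then _ else _) = _
      rw [if_pos rfl]
      rfl
    · intro j hj
      ext k l
      show (H888R2.KB.ap i (H888R2.KB.lml g) x) (j, (k, l)) = _
      show (if (j, (k, l)).1 = i then _ else _) = _
      rw [if_neg hj]
      rfl⟩
  have hK : 0 ≤ (1 + Real.log b / m) ^ 2 * s := by positivity
  refine ⟨fun hf1 => ?_, fun hf1 => ?_⟩
  · obtain ⟨h3, h4⟩ := h₁ hb hm hn hnm ρ hρ hprob.measure_univ s hs hmom f hf hf1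
    refine ⟨h3, ?_⟩
    rw [ProbabilityTheory.variance_eq_integral hf.continuous.measurable.aemeasurable]
    refine h4.trans ?_
    show C₁ * (1 + Real.log b / m) ^ 2 * s ≤ max C₁ C₂ * (1 + Real.log b / m) ^ 2 * s
    rw [mul_assoc, mul_assoc]
    exact mul_le_mul_of_nonneg_right (le_max_left _ _) hK
  · have h4 := h₂ hb hm hn hnm ρ hρ hprob.measure_univ s hs hmom f hf hf1
    rw [ProbabilityTheory.variance_eq_integral hf.continuous.measurable.aemeasurable]
    refine h4.trans (mul_le_mul_left (ENNReal.ofReal_le_ofReal ?_) _)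
    show C₂ * (1 + Real.log b / m) ^ 2 * s ≤ max C₁ C₂ * (1 + Real.log b / m) ^ 2 * s
    rw [mul_assoc, mul_assoc]
    exact mul_le_mul_of_nonneg_right (le_max_right _ _) hK

end Pool.Agent.Results.MP_6d896a_gt.IndependentRotations
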