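import Pool.Agent.H212R2.KLS.G1
import Pool.Agent.H212R2.KLS.G2

/-!
# The KLS inequality for log-concave measures on matrices invariant under `X ↦ g X`

The Kannan-Lovasz-Simonovits conjecture, in the form of a Poincare inequality, with an absolute
constant, for all log-concave probability measures on `m × n` matrices (`n ≤ m`, `3 ≤ m`)
whose density is invariant under left multiplication by orthogonal matrices.
-/

set_option autoImplicit false

namespace Pool.Agent.Results.MP_6d896a_gt.OrthogonalInvariant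

open MeasureTheory Set
open scoped ENNReal InnerProductSpace

/-- **KLS for orthogonally invariant log-concave measures.** There is an absolute constant `C`
such that for all `m ≥ 3`, `n ≤ m`, every log-concave probability density `ρ` on real `m × n`
matrices (with the Euclidean structure of `ℝ^(mn)`) with `ρ (g X) = ρ X` for all orthogonal
`g`, all second moments `E ⟪θ, X⟫² ≤ s ‖θ‖²` (the mean is zero by symmetry) and all `C¹`
functions `f ∈ L²(μ)`: `Var f ≤ C s E ‖∇ f‖²`. -/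
theorem result : ∃ C : ℝ, 0 < C ∧ ∀ m n : ℕ, 3 ≤ m → n ≤ m →
    ∀ ρ : EuclideanSpace ℝ (Fin m × Fin n) → ℝ, Measurable ρ → (∀ X, 0 ≤ ρ X) →
    (∀ X Y, ∀ t : ℝ, 0 < t → t < 1 →
      ρ X ^ (1 - t) * ρ Y ^ t ≤ ρ ((1 - t) • X + t • Y)) →
    (∀ g ∈ Matrix.orthogonalGroup (Fin m) ℝ, ∀ X : EuclideanSpace ℝ (Fin m × Fin n),
      ρ (WithLp.toLp 2 fun p => ∑ k, g p.1 k * X (k, p.2)) = ρ X) →
    ∀ μ : Measure (EuclideanSpace ℝ (Fin m × Fin n)),
    μ = volume.withDensity (fun X => ENNReal.ofReal (ρ X)) → IsProbabilityMeasure μ →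
    ∀ s : ℝ, 0 < s →
    (∀ θ : EuclideanSpace ℝ (Fin m × Fin n),
      ∫⁻ X, ENNReal.ofReal (⟪θ, X⟫_ℝ ^ 2) ∂μ ≤ ENNReal.ofReal (s * ‖θ‖ ^ 2)) →
    ∀ f : EuclideanSpace ℝ (Fin m × Fin n) → ℝ, ContDiff ℝ 1 f → MemLp f 2 μ →
    ENNReal.ofReal (ProbabilityTheory.variance f μ) ≤
      ENNReal.ofReal (C * s) * ∫⁻ X, ENNReal.ofReal (‖fderiv ℝ f X‖ ^ 2) ∂μ := by
  obtain ⟨C, hC, h⟩ := H212R2.KLS.main_of H212R2.KLS.core
    (fun hρ hm => (H212R2.KLS.Dens.basic hρ hm).2.2.2.2)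
  refine ⟨C, hC, ?_⟩
  intro m n hm hnm ρ hmeas h0 hlc hinv μ hμ hprob s hs hmom f hf hfL
  subst hμ
  have hρ : H212R2.KLS.Dens m n ρ := ⟨h0, hmeas, hlc, hinv⟩
  have h1 := h hm hnm ρ hρ hprob.measure_univ s hs hmom f hf hfL
  rw [ProbabilityTheory.variance_eq_integral hfL.aestronglyMeasurable.aemeasurable]
  exact h1

end Pool.Agent.Results.MP_6d896a_gt.OrthogonalInvariant
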