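import Pool.Agent.H888R2.KT.G4
import Pool.Agent.H888R2.KT.C1
import Pool.Agent.H888R2.KC.F2

/-!
# The KLS inequality for tuples of Hermitian matrices, simultaneous conjugation

The Kannan-Lovasz-Simonovits conjecture, in the form of a Poincare inequality, for all log-concave
probability measures on `q`-tuples `(X_1, …, X_q)` of real symmetric (`𝕜 = ℝ`) or complex Hermitian
(`𝕜 = ℂ`) `N × N` matrices, `3 ≤ N`, whose density is invariant under the simultaneous conjugation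
`(X_1, …, X_q) ↦ (U X_1 Uᴴ, …, U X_q Uᴴ)` for all orthogonal resp. unitary `U`; the constant is
`C q ^ 4` with an absolute constant `C`, it does not depend on `N`. The case `q = 1` is the class of
all conjugation invariant log-concave measures on Hermitian matrices, with an absolute constant.

Method: a discrete Bochner inequality through the Gaussian channel `x ↦ x + √h G` (module `KT.N8`)
instead of the elliptic theory; the structure of the Lie algebra enters through the Casimir operator.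

Formalised by the team from the blueprint in `Pool.Agent.H888R2.KT` (helpers 19, 51, 90, 92, 129, 171,
177, 180, 202, 204, 218, 220, 227, 248, 259, 279, 318, 330, 390, 399, 457, 503, 551, 563, 588, 697,
732, 807, 816, 854, 862, 866, 888, 939, 991).
-/

set_option autoImplicit false

namespace Pool.Agent.Results.MP_6d896a_gt.SimultaneousConjugation

open MeasureTheory Set
open scoped ENNReal InnerProductSpace Matrix

/-- `Φ` is a linear isometry of the Euclidean space `ℝ^ι` onto the real vector space of Hermitian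
`N × N` matrices over `𝕜` with the Hilbert-Schmidt norm. -/
structure HermFrame {𝕜 : Type} [RCLike 𝕜] {N : ℕ} {ι : Type} [Fintype ι]
    (Φ : EuclideanSpace ℝ ι →ₗ[ℝ] Matrix (Fin N) (Fin N) 𝕜) : Prop where
  herm : ∀ x, (Φ x)ᴴ = Φ x
  surj : ∀ A : Matrix (Fin N) (Fin N) 𝕜, Aᴴ = A → ∃ x, Φ x = A
  iso : ∀ x, ∑ i, ∑ j, ‖Φ x i j‖ ^ 2 = ‖x‖ ^ 2

/-- the `j`-th component of a `q`-tuple of vectors of `ℝ^ι` -/
def comp {q : ℕ} {ι : Type} (j : Fin q) (x : EuclideanSpace ℝ (Fin q × ι)) : EuclideanSpace ℝ ι :=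
  WithLp.toLp 2 fun i => x (j, i)

/-- `ρ` is a log-concave density on the `q`-tuples of Hermitian matrices `X_j = Φ (comp j x)`,
invariant under the simultaneous conjugations `X_j ↦ U X_j Uᴴ`, `j = 1, …, q`, for all unitary
(orthogonal if `𝕜 = ℝ`) matrices `U`. -/
structure InvDensity {𝕜 : Type} [RCLike 𝕜] {N q : ℕ} {ι : Type} [Fintype ι]
    (Φ : EuclideanSpace ℝ ι →ₗ[ℝ] Matrix (Fin N) (Fin N) 𝕜)
    (ρ : EuclideanSpace ℝ (Fin q × ι) → ℝ) : Prop where
  meas : Measurable ρ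
  nonneg : ∀ x, 0 ≤ ρ x
  logc : ∀ x y, ∀ t : ℝ, 0 < t → t < 1 → ρ x ^ (1 - t) * ρ y ^ t ≤ ρ ((1 - t) • x + t • y)
  inv : ∀ U ∈ Matrix.unitaryGroup (Fin N) 𝕜, ∀ x y,
    (∀ j, Φ (comp j y) = U * Φ (comp j x) * Uᴴ) → ρ y = ρ x

/-- `Var ⟪θ, X⟫ ≤ s ‖θ‖²` for all `θ`: the covariance matrix of `μ` has norm at most `s`. -/
def CovLe {κ : Type} [Fintype κ] (μ : Measure (EuclideanSpace ℝ κ)) (s : ℝ) : Prop :=
  ∀ θ : EuclideanSpace ℝ κ, ProbabilityTheory.evariance (fun x => ⟪θ, x⟫_ℝ) μ ≤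
    ENNReal.ofReal (s * ‖θ‖ ^ 2)

/-- Poincare inequality: `Var f ≤ K E ‖∇ f‖²` for all `C¹` functions `f ∈ L²(μ)`. -/
def PoincareLe {κ : Type} [Fintype κ] (μ : Measure (EuclideanSpace ℝ κ)) (K : ℝ) : Prop :=
  ∀ f : EuclideanSpace ℝ κ → ℝ, ContDiff ℝ 1 f → MemLp f 2 μ →
    ENNReal.ofReal (ProbabilityTheory.variance f μ) ≤
      ENNReal.ofReal K * ∫⁻ x, ENNReal.ofReal (‖fderiv ℝ f x‖ ^ 2) ∂μ

/-- **KLS for log-concave measures on tuples of Hermitian matrices invariant under simultaneous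
conjugation.** There is an absolute constant `C` such that for `𝕜 = ℝ` or `ℂ`, all `N ≥ 3`, all
`q ≥ 1`, every linear isometric parametrisation `Φ` of the Hermitian `N × N` matrices over `𝕜`,
every log-concave probability density `ρ` on `q`-tuples invariant under simultaneous conjugation by
unitary matrices, and all variances `Var ⟪θ, X⟫ ≤ s ‖θ‖²`: the Poincare inequality holds with
constant `C q⁴ s`, independent of `N`. -/
theorem result : ∃ C : ℝ, 0 < C ∧ ∀ (𝕜 : Type) [RCLike 𝕜] (N q : ℕ), 3 ≤ N → 1 ≤ q →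
    ∀ (ι : Type) [Fintype ι] (Φ : EuclideanSpace ℝ ι →ₗ[ℝ] Matrix (Fin N) (Fin N) 𝕜),
    HermFrame Φ → ∀ ρ : EuclideanSpace ℝ (Fin q × ι) → ℝ, InvDensity Φ ρ →
    ∀ μ : Measure (EuclideanSpace ℝ (Fin q × ι)),
    μ = volume.withDensity (fun x => ENNReal.ofReal (ρ x)) →
    IsProbabilityMeasure μ → ∀ s : ℝ, 0 < s → CovLe μ s → PoincareLe μ (C * q ^ 4 * s) := by
  obtain ⟨C, hC, h⟩ := H888R2.KT.mainq_centered
  refine ⟨C, hC, ?_⟩
  intro 𝕜 _ N q hN hq ι _ Φ hΦ' ρ hρ' μ hμ hprob s hs hmom f hf hfL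
  subst hμ
  have hΦ : H888R2.KC.Fr Φ := ⟨hΦ'.herm, hΦ'.surj, hΦ'.iso⟩
  have hρ : H888R2.KT.DT Φ ρ := ⟨hρ'.nonneg, hρ'.meas, hρ'.logc, fun U hU x =>
    hρ'.inv U hU x _ (fun j => by
      have h1 : H888R2.KT.cp j (H888R2.KT.di q (H888R2.KC.cj Φ U) x) =
          H888R2.KC.cj Φ U (H888R2.KT.cp j x) := H888R2.KT.cp_di _ x j
      have h2 := H888R2.KC.Phi_cj hΦ U (H888R2.KT.cp j x)
      rw [← h1] at h2
      exact h2)⟩
  have h4 := h hΦ hN hq ρ hρ hprob.measure_univ s hs hmom f hf hfL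
  rw [ProbabilityTheory.variance_eq_integral hfL.aestronglyMeasurable.aemeasurable]
  exact h4

end Pool.Agent.Results.MP_6d896a_gt.SimultaneousConjugation
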