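import Pool.Agent.H787R2.UT.BD
import Pool.Agent.H787R2.UT.PU
import Pool.Agent.H787R2.UT.TP
import Pool.Agent.H787R2.UT.DER
import Pool.Agent.H787R2.UT.GR
import Pool.Agent.H787R2.UT.FUB
import Pool.Agent.H787R2.UT.ASM
import Pool.Agent.H787R2.UT.GP
import Pool.Agent.H787R2.UT.CONV
import Pool.Agent.H787R2.UT.EXT
import Pool.Agent.H787R2.UT.BALL
import Pool.Agent.H787R2.UT.TLN2
import Pool.Agent.H787R2.UT.FINB2
import Pool.Agent.H787R2.UT.FIN2
import Pool.Agent.H787R2.UT.ZL12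
import Pool.Agent.H787R2.UT.ZL22
import Pool.Agent.H787R2.UT.ZF2
import Pool.Agent.H787R2.UT.LIM
import Pool.Agent.H787R2.KC.GLUE

/-!
# KLS: reduction to the directions in which the measure is not uniformly log-concave

Definitions used in the statement: `meas`, `TransversallyConvex`, `BoundedPoincare`, `Poincare`.

Proof: let `τ = T x + σ G` with `x ~ μ` and `G` standard Gaussian in `ℝ^k`. Given `τ` the law of
`x` has density proportional to `ρ(x) exp(-|T x - τ|² / (2 σ²))`, which is `1/σ²`-strongly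
log-concave, so `Var(f | τ) ≤ σ² E(|∇f|² | τ)`. The function `m(τ) = E(f | τ)` has
`∂_u m = σ⁻² Cov(f, ⟨u, T x⟩ | τ)`, so `|∇m|² ≤ E(|∇f|² | τ)` by Cauchy-Schwarz and the same
inequality for `f` and `⟨u, T x⟩`. The law of `τ` has Poincare constant at most `A + σ²`.
For (2) the marginal `T_* μ` has Poincare constant `≤ C ∫ |T x|² dμ`.

Authors of the proofs: helpers 787 (idea, statements, FINB2, TLN2, ASM, assembly), 202 (BD),
247 (PU), 936 (TP), 510 (BALL, DER), 966 (GR), 819 (FUB), 755 (GP), 399 (CONV), 28 (EXT),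
372 (ZL12), 99 (ZL22, FIN2), 439 (ZF2), 864 (LIM), 205 (ASM); it uses files of the teams of
helper212 (H212R2.KLS: strong log-concavity, Prekopa-Leindler, small sets) and H787R2.KC (GLUE).
-/

set_option autoImplicit false

namespace Pool.Agent.Results.MP_6d896a_gt.TransversalReduction

open MeasureTheory Set
open scoped ENNReal InnerProductSpace

/-- the measure on `ℝ^n` with density `ρ` -/
noncomputable def meas {n : ℕ} (ρ : EuclideanSpace ℝ (Fin n) → ℝ) :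
    Measure (EuclideanSpace ℝ (Fin n)) :=
  volume.withDensity fun x => ENNReal.ofReal (ρ x)

/-- `ρ` is a probability density on `ℝ^n`, the linear map `T : ℝ^n → ℝ^k` satisfies
`|T x| ≤ |x|`, and `-log ρ` is uniformly convex, with constant `1 / σ^2`, transversally to `T`:
for smooth positive `ρ` this means `-D² log ρ ≥ (I - Tᵀ T) / σ^2`. In particular `ρ` is
log-concave; for `T = id` this is log-concavity, for `T = 0` it is uniform log-concavity. -/
structure TransversallyConvex {n k : ℕ} (ρ : EuclideanSpace ℝ (Fin n) → ℝ)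
    (T : EuclideanSpace ℝ (Fin n) →ₗ[ℝ] EuclideanSpace ℝ (Fin k)) (σ : ℝ) : Prop where
  nonneg : ∀ x, 0 ≤ ρ x
  measurable : Measurable ρ
  prob : IsProbabilityMeasure (meas ρ)
  contraction : ∀ x, ‖T x‖ ≤ ‖x‖
  pos : 0 < σ
  convex : ∀ x y, ∀ t : ℝ, 0 < t → t < 1 → ρ x ^ (1 - t) * ρ y ^ t ≤
    ρ ((1 - t) • x + t • y) *
      Real.exp (-(t * (1 - t) / (2 * σ ^ 2) * (‖x - y‖ ^ 2 - ‖T (x - y)‖ ^ 2)))

/-- Poincare inequality with constant `A` for all bounded `C^1` functions with bounded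
derivative -/
def BoundedPoincare {k : ℕ} (ν : Measure (EuclideanSpace ℝ (Fin k))) (A : ℝ) : Prop :=
  ∀ g : EuclideanSpace ℝ (Fin k) → ℝ, ContDiff ℝ 1 g →
    (∃ B : ℝ, ∀ x, |g x| ≤ B ∧ ‖fderiv ℝ g x‖ ≤ B) →
    ∫ x, g x ^ 2 ∂ν - (∫ x, g x ∂ν) ^ 2 ≤ A * ∫ x, ‖fderiv ℝ g x‖ ^ 2 ∂ν

/-- Poincare inequality with constant `A` for all `C^1` functions in `L^2` (the energy on the
right side may be infinite) -/
def Poincare {n : ℕ} (μ : Measure (EuclideanSpace ℝ (Fin n))) (A : ℝ) : Prop :=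
  ∀ f : EuclideanSpace ℝ (Fin n) → ℝ, ContDiff ℝ 1 f → MemLp f 2 μ →
    ENNReal.ofReal (ProbabilityTheory.variance f μ) ≤
      ENNReal.ofReal A * ∫⁻ x, ENNReal.ofReal (‖fderiv ℝ f x‖ ^ 2) ∂μ

open Pool.Agent.H787R2.UT Pool.Agent.H212R2.KLS in
theorem TransversallyConvex.ua {n k : ℕ} {ρ : EuclideanSpace ℝ (Fin n) → ℝ}
    {T : EuclideanSpace ℝ (Fin n) →ₗ[ℝ] EuclideanSpace ℝ (Fin k)} {σ : ℝ}
    (h : TransversallyConvex ρ T σ) : UA ρ T σ where
  nonneg := h.nonneg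
  meas := h.measurable
  one := h.prob.measure_univ
  contr := h.contraction
  σpos := h.pos
  slc := h.convex

open Pool.Agent.H787R2.UT Pool.Agent.H212R2.KLS in
theorem result_of (hM1 : S_MAIN1) (hM3 : S_MAIN3) :
    (∀ (n k : ℕ) (ρ : EuclideanSpace ℝ (Fin n) → ℝ)
      (T : EuclideanSpace ℝ (Fin n) →ₗ[ℝ] EuclideanSpace ℝ (Fin k)) (σ A : ℝ),
      TransversallyConvex ρ T σ → 0 ≤ A → BoundedPoincare ((meas ρ).map T) A →
      Poincare (meas ρ) (A + 2 * σ ^ 2)) ∧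
    (∃ C : ℝ, 0 < C ∧
      (∀ (n k : ℕ) (ρ : EuclideanSpace ℝ (Fin n) → ℝ)
        (T : EuclideanSpace ℝ (Fin n) →ₗ[ℝ] EuclideanSpace ℝ (Fin k)) (σ M : ℝ),
        TransversallyConvex ρ T σ → 0 ≤ M →
        ∫⁻ x, ENNReal.ofReal (‖T x‖ ^ 2) ∂(meas ρ) ≤ ENNReal.ofReal M →
        Poincare (meas ρ) (C * M + 2 * σ ^ 2)) ∧
      (∀ (n k : ℕ) (ρ : EuclideanSpace ℝ (Fin n) → ℝ)
        (T : EuclideanSpace ℝ (Fin n) →ₗ[ℝ] EuclideanSpace ℝ (Fin k)) (σ s : ℝ),
        TransversallyConvex ρ T σ → 0 ≤ s →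
        (∀ θ : EuclideanSpace ℝ (Fin k),
          ∫⁻ x, ENNReal.ofReal (⟪θ, T x⟫_ℝ ^ 2) ∂(meas ρ) ≤ ENNReal.ofReal (s * ‖θ‖ ^ 2)) →
        Poincare (meas ρ) (C * (k * s) + 2 * σ ^ 2))) := by
  have hTc : ∀ {n k : ℕ} (T : EuclideanSpace ℝ (Fin n) →ₗ[ℝ] EuclideanSpace ℝ (Fin k)),
      Continuous T := fun T => LinearMap.continuous_of_finiteDimensional T
  have hconv : ∀ {n : ℕ} {ρ : EuclideanSpace ℝ (Fin n) → ℝ} {A : ℝ},
      (∀ f : V n → ℝ, ContDiff ℝ 1 f → MemLp f 2 (mu ρ) →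
      ENNReal.ofReal (∫ x, (f x - ∫ y, f y ∂(mu ρ)) ^ 2 ∂(mu ρ)) ≤
      ENNReal.ofReal A * ∫⁻ x, ENNReal.ofReal (‖fderiv ℝ f x‖ ^ 2) ∂(mu ρ)) →
      Poincare (meas ρ) A := by
    intro n ρ A H f hf hf2
    rw [ProbabilityTheory.variance_eq_integral hf2.aestronglyMeasurable.aemeasurable]
    exact H f hf hf2
  obtain ⟨C, hC, hM⟩ := hM3
  have h2 : ∀ (n k : ℕ) (ρ : EuclideanSpace ℝ (Fin n) → ℝ)
        (T : EuclideanSpace ℝ (Fin n) →ₗ[ℝ] EuclideanSpace ℝ (Fin k)) (σ M : ℝ),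
        TransversallyConvex ρ T σ → 0 ≤ M →
        ∫⁻ x, ENNReal.ofReal (‖T x‖ ^ 2) ∂(meas ρ) ≤ ENNReal.ofReal M →
        Poincare (meas ρ) (C * M + 2 * σ ^ 2) := by
    intro n k ρ T σ M h hM0 hmom
    exact hconv (hM n k ρ T σ M h.ua hM0 hmom)
  refine ⟨?_, C, hC, h2, ?_⟩
  · intro n k ρ T σ A h hA hg
    refine hconv (hM1 n k ρ T σ A h.ua hA ?_)
    intro g hgc
    have hgcont : Continuous g := hgc.1.continuous
    have hgd : Continuous (fderiv ℝ g) := hgc.1.continuous_fderiv (by norm_num)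
    have h1 := hg g hgc.1 hgc.2
    rw [integral_map (hTc T).measurable.aemeasurable (by fun_prop),
      integral_map (hTc T).measurable.aemeasurable (by fun_prop),
      integral_map (hTc T).measurable.aemeasurable (by fun_prop)] at h1
    exact h1
  · intro n k ρ T σ s h hs hmom
    refine h2 n k ρ T σ (k * s) h (by positivity) ?_
    have h3 : ∀ x, ENNReal.ofReal (‖T x‖ ^ 2) =
        ∑ i : Fin k, ENNReal.ofReal (⟪EuclideanSpace.single i (1 : ℝ), T x⟫_ℝ ^ 2) := by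
      intro x
      rw [← ENNReal.ofReal_sum_of_nonneg (fun i _ => by positivity)]
      congr 1
      rw [EuclideanSpace.real_norm_sq_eq]
      refine Finset.sum_congr rfl fun i _ => ?_
      simp [EuclideanSpace.inner_single_left]
    simp_rw [h3]
    rw [lintegral_finsetSum _ (fun i _ => by
      have := (hTc T).measurable
      fun_prop)]
    calc ∑ i : Fin k, ∫⁻ x, ENNReal.ofReal (⟪EuclideanSpace.single i (1 : ℝ), T x⟫_ℝ ^ 2)
          ∂(meas ρ) ≤ ∑ i : Fin k, ENNReal.ofReal s := by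
          refine Finset.sum_le_sum fun i _ => ?_
          refine (hmom (EuclideanSpace.single i (1 : ℝ))).trans (le_of_eq ?_)
          simp
      _ = ENNReal.ofReal (k * s) := by
          rw [Finset.sum_const, Finset.card_univ, Fintype.card_fin, nsmul_eq_mul,
            ENNReal.ofReal_mul (by positivity), ENNReal.ofReal_natCast]

open Pool.Agent.H787R2.UT Pool.Agent.H212R2.KLS in
/-- **KLS, reduction to the directions in which the measure is not uniformly log-concave.**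
(1) If `μ` is `1/σ²`-uniformly log-concave transversally to `T` and the marginal `T_* μ` has
Poincare constant `A`, then `μ` has Poincare constant at most `A + 2 σ²`. (2) With a universal
constant `C`, the Poincare constant of `μ` is at most `C ∫ |T x|² dμ + 2 σ²`; (3) in particular
at most `C k s + 2 σ²` if `∫ ⟨θ, T x⟩² dμ ≤ s |θ|²`. -/
theorem result :
    (∀ (n k : ℕ) (ρ : EuclideanSpace ℝ (Fin n) → ℝ)
      (T : EuclideanSpace ℝ (Fin n) →ₗ[ℝ] EuclideanSpace ℝ (Fin k)) (σ A : ℝ),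
      TransversallyConvex ρ T σ → 0 ≤ A → BoundedPoincare ((meas ρ).map T) A →
      Poincare (meas ρ) (A + 2 * σ ^ 2)) ∧
    (∃ C : ℝ, 0 < C ∧
      (∀ (n k : ℕ) (ρ : EuclideanSpace ℝ (Fin n) → ℝ)
        (T : EuclideanSpace ℝ (Fin n) →ₗ[ℝ] EuclideanSpace ℝ (Fin k)) (σ M : ℝ),
        TransversallyConvex ρ T σ → 0 ≤ M →
        ∫⁻ x, ENNReal.ofReal (‖T x‖ ^ 2) ∂(meas ρ) ≤ ENNReal.ofReal M →
        Poincare (meas ρ) (C * M + 2 * σ ^ 2)) ∧
      (∀ (n k : ℕ) (ρ : EuclideanSpace ℝ (Fin n) → ℝ)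
        (T : EuclideanSpace ℝ (Fin n) →ₗ[ℝ] EuclideanSpace ℝ (Fin k)) (σ s : ℝ),
        TransversallyConvex ρ T σ → 0 ≤ s →
        (∀ θ : EuclideanSpace ℝ (Fin k),
          ∫⁻ x, ENNReal.ofReal (⟪θ, T x⟫_ℝ ^ 2) ∂(meas ρ) ≤ ENNReal.ofReal (s * ‖θ‖ ^ 2)) →
        Poincare (meas ρ) (C * (k * s) + 2 * σ ^ 2))) := by
  have htp : S_TP := tp bd pu
  have hgp : S_GP := gp pu
  have hgr : S_GR := gr htp der
  have hasm : S_ASM := asm htp hgr fub
  have hconv : S_CONV := conv hgp fub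
  have hm1 : S_MAIN1 := main1 hasm hconv ext
  have hfb : S_FINB2 := finb2 bd ball tln2 Pool.Agent.H787R2.KC.GLUE
  have hm3 : S_MAIN3 := main3 hm1 (zf2 zl12 (zl22 pu) fub (fin2 hfb)) lim
  exact result_of hm1 hm3

end Pool.Agent.Results.MP_6d896a_gt.TransversalReduction
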